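import Pool.Agent.N918.MS.Seq

set_option autoImplicit false

/-! Sets of integers with a power saving are avoided by random and metric sequences. -/

namespace Pool.Agent.L7h16.KA

open Finset Filter
open Pool.Agent.N918.MS (AlmostAlways)

open Classical in
lemma almostAlways_of (P : ℤ → Prop) (C θ : ℝ) (hθ : 0 < θ) (hθ1 : θ ≤ 1) (hC : 0 ≤ C)
    (h : ∀ X : ℕ, 1 ≤ X → (((Icc 1 X).filter (fun n : ℕ => ¬ (P (n : ℤ) ∧ P (-(n : ℤ))))).card : ℝ) ≤ C * (X : ℝ) ^ (1 - θ)) :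
    AlmostAlways P := by
  apply AlmostAlways.of_card
  intro U
  have t1 : Tendsto (fun X : ℕ => Real.log (X : ℝ) ^ U / (X : ℝ) ^ θ) atTop (nhds 0) := by
    have h1 : Tendsto (fun x : ℝ => Real.log x ^ U / x ^ θ) atTop (nhds 0) := by
      have h2 := isLittleO_log_rpow_rpow_atTop (U : ℝ) hθ
      have h3 := h2.tendsto_div_nhds_zero
      refine h3.congr (fun x => ?_)
      rw [Real.rpow_natCast]
    exact h1.comp tendsto_natCast_atTop_atTop
  have ev := t1.eventually (gt_mem_nhds (show (0 : ℝ) < 1 / (1 + 2 * C) by positivity))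
  obtain ⟨X₀, hX₀⟩ := eventually_atTop.1 (ev.and (eventually_ge_atTop 3))
  refine ⟨X₀, fun X hX => ?_⟩
  obtain ⟨g1, g2⟩ := hX₀ X hX
  have hX3 : (3 : ℝ) ≤ X := by exact_mod_cast g2
  have hX0 : (0 : ℝ) < X := by linarith
  have hlog : 0 < Real.log X := Real.log_pos (by linarith)
  have hsub : (Icc (-(X : ℤ)) X).filter (fun k => ¬ P k) ⊆ insert 0
      (((Icc 1 X).filter (fun n : ℕ => ¬ (P (n : ℤ) ∧ P (-(n : ℤ))))).image (fun n : ℕ => (n : ℤ)) ∪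
       ((Icc 1 X).filter (fun n : ℕ => ¬ (P (n : ℤ) ∧ P (-(n : ℤ))))).image (fun n : ℕ => -(n : ℤ))) := by
    intro k hk
    rw [mem_filter, mem_Icc] at hk
    obtain ⟨⟨hk1, hk2⟩, hk3⟩ := hk
    rw [mem_insert, mem_union, mem_image, mem_image]
    rcases lt_trichotomy k 0 with h0 | h0 | h0
    · right; right
      have e : -((k.natAbs : ℕ) : ℤ) = k := by omega
      refine ⟨k.natAbs, mem_filter.2 ⟨mem_Icc.2 ⟨by omega, by omega⟩, fun hh => hk3 ?_⟩, e⟩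
      have := hh.2
      rwa [e] at this
    · left
      exact h0
    · right; left
      have e : ((k.natAbs : ℕ) : ℤ) = k := by omega
      refine ⟨k.natAbs, mem_filter.2 ⟨mem_Icc.2 ⟨by omega, by omega⟩, fun hh => hk3 ?_⟩, e⟩
      have := hh.1
      rwa [e] at this
  have h1 := card_le_card hsub
  have h2 := card_insert_le (0 : ℤ) (((Icc 1 X).filter (fun n : ℕ => ¬ (P (n : ℤ) ∧ P (-(n : ℤ))))).image (fun n : ℕ => (n : ℤ)) ∪
       ((Icc 1 X).filter (fun n : ℕ => ¬ (P (n : ℤ) ∧ P (-(n : ℤ))))).image (fun n : ℕ => -(n : ℤ)))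
  have h3 := card_union_le (((Icc 1 X).filter (fun n : ℕ => ¬ (P (n : ℤ) ∧ P (-(n : ℤ))))).image (fun n : ℕ => (n : ℤ)))
       (((Icc 1 X).filter (fun n : ℕ => ¬ (P (n : ℤ) ∧ P (-(n : ℤ))))).image (fun n : ℕ => -(n : ℤ)))
  have h4 : (((Icc 1 X).filter (fun n : ℕ => ¬ (P (n : ℤ) ∧ P (-(n : ℤ))))).image (fun n : ℕ => (n : ℤ))).card ≤
    ((Icc 1 X).filter (fun n : ℕ => ¬ (P (n : ℤ) ∧ P (-(n : ℤ))))).card := card_image_le
  have h5 : (((Icc 1 X).filter (fun n : ℕ => ¬ (P (n : ℤ) ∧ P (-(n : ℤ))))).image (fun n : ℕ => -(n : ℤ))).card ≤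
    ((Icc 1 X).filter (fun n : ℕ => ¬ (P (n : ℤ) ∧ P (-(n : ℤ))))).card := card_image_le
  have h6 : ((Icc (-(X : ℤ)) X).filter (fun k => ¬ P k)).card ≤
    2 * ((Icc 1 X).filter (fun n : ℕ => ¬ (P (n : ℤ) ∧ P (-(n : ℤ))))).card + 1 := by omega
  have h7 : (((Icc (-(X : ℤ)) X).filter (fun k => ¬ P k)).card : ℝ) ≤
    2 * (((Icc 1 X).filter (fun n : ℕ => ¬ (P (n : ℤ) ∧ P (-(n : ℤ))))).card : ℝ) + 1 := by exact_mod_cast h6
  have h8 := h X (by omega)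
  have h9 : (1 : ℝ) ≤ (X : ℝ) ^ (1 - θ) := Real.one_le_rpow (by linarith) (by linarith)
  have h10 : (((Icc (-(X : ℤ)) X).filter (fun k => ¬ P k)).card : ℝ) ≤ (1 + 2 * C) * (X : ℝ) ^ (1 - θ) := by nlinarith
  refine h10.trans ?_
  rw [le_div_iff₀ (by positivity)]
  have hXθ : 0 < (X : ℝ) ^ θ := by positivity
  rw [div_lt_iff₀ hXθ] at g1
  have h11 : (1 + 2 * C) * Real.log X ^ U ≤ (X : ℝ) ^ θ := by
    have : (1 + 2 * C) * Real.log X ^ U ≤ (1 + 2 * C) * (1 / (1 + 2 * C) * (X : ℝ) ^ θ) :=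
      mul_le_mul_of_nonneg_left g1.le (by linarith)
    refine this.trans (le_of_eq ?_)
    field_simp
  calc (1 + 2 * C) * (X : ℝ) ^ (1 - θ) * Real.log X ^ U = (X : ℝ) ^ (1 - θ) * ((1 + 2 * C) * Real.log X ^ U) := by ring
    _ ≤ (X : ℝ) ^ (1 - θ) * (X : ℝ) ^ θ := mul_le_mul_of_nonneg_left h11 (by positivity)
    _ = X := by
        rw [← Real.rpow_add hX0]
        norm_num

end Pool.Agent.L7h16.KA
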