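import Pool.Agent.L7h16.KA.Kl

set_option autoImplicit false

/-!
The Kloosterman angles at consecutive primes for almost all integers, with a power saving: the form for applications.
-/

namespace Pool.Agent.L7h16.KA

open Finset Filter Polynomial
open Pool.Agent.H807R2.Dav (ee norm_ee ee_add)
open Pool.Agent.Results.MP_6ea630_nt.NonIntegralOrderValues (angle angle_congr boxCount boxModel proportion signCount)

lemma sum_full (X M a : ℕ) (hM : 1 ≤ M) (ha : a ∈ Ico 1 M) : ‖∑ n ∈ range X, ee ((a : ℝ) * (n : ℝ) / M)‖ ≤ M := by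
  have hM0 : (0 : ℝ) < M := by exact_mod_cast hM
  rw [mem_Ico] at ha
  obtain ⟨q, hq⟩ : ∃ q, q = X / M := ⟨_, rfl⟩
  have hX : X = M * q + X % M := by rw [hq]; exact (Nat.div_add_mod X M).symm
  have e0 : ∀ n : ℕ, ee ((a : ℝ) * (n : ℝ) / M) = ee ((n : ℝ) * (((a : ℕ) : ℤ) / (M : ℝ))) := by
    intro n
    congr 1
    push_cast
    ring
  have h1 : ∑ n ∈ range (M * q), ee ((a : ℝ) * (n : ℝ) / M) = 0 := by
    simp only [e0]
    have := geom_zero M (M * q) ⟨q, rfl⟩ hM ((a : ℕ) : ℤ) (by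
      intro h
      rw [Int.natCast_dvd_natCast] at h
      have := Nat.le_of_dvd (by omega) h
      omega)
    simpa using this
  rw [hX, sum_range_add, h1, zero_add]
  refine (norm_sum_le _ _).trans ?_
  calc ∑ x ∈ range (X % M), ‖ee ((a : ℝ) * ((M * q + x : ℕ) : ℝ) / M)‖ = ∑ x ∈ range (X % M), (1 : ℝ) :=
        sum_congr rfl fun x _ => norm_ee _
    _ = ((X % M : ℕ) : ℝ) := by simp
    _ ≤ M := by exact_mod_cast (Nat.mod_lt X hM).le

/-- All boxes at `s` consecutive primes for the number `P(n)`, up to a power of `|n|`. -/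
def Good (s : ℕ) (ε θ C : ℝ) (P : ℤ[X]) (n : ℤ) : Prop :=
  ∀ K : ℕ, (K : ℝ) ≤ |(n : ℝ)| ^ θ → ∀ I : Fin s → Set ℝ, (∀ i, (I i).OrdConnected) →
    |(boxCount I K (P.eval n) : ℝ) - boxModel P I K| ≤ C * ((K : ℝ) ^ (1 / 2 + ε) * √(1 + Real.log |(n : ℝ)|))

open Classical in
/-- power saving for all integers -/
theorem all_nat (s : ℕ) (hs : 1 ≤ s) (ε : ℝ) (hε : 0 < ε) : ∃ θ C : ℝ, 0 < θ ∧ θ ≤ 1 / 2 ∧ 1 ≤ C ∧ ∀ (P : ℤ[X]) (X : ℕ), 1 ≤ X →
    (((Icc 1 X).filter (fun n : ℕ => ¬ Good s ε θ C P n)).card : ℝ) ≤ C * (X : ℝ) ^ (1 - θ) := by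
  obtain ⟨θ, C, h1, h2, h3, H⟩ := kl_boxes 1 le_rfl (1 / 2) (1 / 2) 1 (by norm_num) (by norm_num) (by norm_num) (by norm_num) le_rfl s hs ε hε
  refine ⟨θ / 2, 4 * C, by positivity, by linarith, by linarith, fun P X hX => ?_⟩
  have hX1 : (1 : ℝ) ≤ X := by exact_mod_cast hX
  have hX0 : (0 : ℝ) < X := by linarith
  have hfam := H P ℕ (range (X + 1)) (fun n => n) X hX (by
    intro M hM _ hMX a ha
    refine (sum_full (X + 1) M a hM ha).trans ?_
    rw [card_range, one_mul]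
    calc (M : ℝ) ≤ (X : ℝ) ^ (1 / 2 : ℝ) := hMX
      _ = (X : ℝ) ^ (-(1 / 2) : ℝ) * (X : ℝ) ^ (1 : ℝ) := by
          rw [← Real.rpow_add hX0]
          norm_num
      _ ≤ _ := by
          rw [Real.rpow_one]
          apply mul_le_mul_of_nonneg_left _ (by positivity)
          push_cast
          linarith)
  rw [card_range] at hfam
  have hsub : (Icc 1 X).filter (fun n : ℕ => ¬ Good s ε (θ / 2) (4 * C) P n) ⊆
      (range (Nat.sqrt X + 1)) ∪ (range (X + 1)).filter (fun n : ℕ => ¬ GoodB s ε C θ P X (n : ℕ)) := by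
    intro n hn
    rw [mem_filter, mem_Icc] at hn
    rw [mem_union, mem_range, mem_filter, mem_range]
    by_cases hsm : n < Nat.sqrt X + 1
    · exact Or.inl hsm
    right
    refine ⟨by omega, fun hg => hn.2 ?_⟩
    have hnX : X ≤ n * n := by
      have h4 : X < (Nat.sqrt X + 1) * (Nat.sqrt X + 1) := Nat.lt_succ_sqrt X
      have h5 : (Nat.sqrt X + 1) * (Nat.sqrt X + 1) ≤ n * n := Nat.mul_le_mul (by omega) (by omega)
      omega
    have hn1 : (1 : ℝ) ≤ n := by exact_mod_cast hn.1.1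
    have hnXr : (X : ℝ) ≤ (n : ℝ) ^ 2 := by
      rw [pow_two]
      exact_mod_cast hnX
    have hnleX : (n : ℝ) ≤ X := by exact_mod_cast hn.1.2
    intro K hK I hI
    have eabs : |(((n : ℕ) : ℤ) : ℝ)| = n := by
      rw [Int.cast_natCast, abs_of_nonneg (by linarith)]
    rw [eabs] at hK ⊢
    have hK2 : (K : ℝ) ≤ (X : ℝ) ^ θ := by
      refine hK.trans ?_
      calc (n : ℝ) ^ (θ / 2) ≤ (n : ℝ) ^ θ := Real.rpow_le_rpow_of_exponent_le hn1 (by linarith)
        _ ≤ _ := Real.rpow_le_rpow (by linarith) hnleX h1.le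
    refine (hg K hK2 I hI).trans ?_
    have h5 : √(1 + Real.log X) ≤ 2 * √(1 + Real.log n) := by
      have h6 : Real.log X ≤ 2 * Real.log n := by
        have := Real.log_le_log hX0 hnXr
        rwa [Real.log_pow, Nat.cast_ofNat] at this
      have h7 := Real.log_nonneg hn1
      calc √(1 + Real.log X) ≤ √(2 ^ 2 * (1 + Real.log n)) := Real.sqrt_le_sqrt (by linarith)
        _ = 2 * √(1 + Real.log n) := by rw [Real.sqrt_mul (by norm_num), Real.sqrt_sq (by norm_num)]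
    calc C * ((K : ℝ) ^ (1 / 2 + ε) * √(1 + Real.log X)) ≤ C * ((K : ℝ) ^ (1 / 2 + ε) * (2 * √(1 + Real.log n))) := by
          apply mul_le_mul_of_nonneg_left _ (by linarith)
          exact mul_le_mul_of_nonneg_left h5 (by positivity)
      _ ≤ 4 * C * ((K : ℝ) ^ (1 / 2 + ε) * √(1 + Real.log n)) := by
          have : 0 ≤ (K : ℝ) ^ (1 / 2 + ε) * √(1 + Real.log n) := by positivity
          nlinarith
  have hcard := (card_le_card hsub).trans (card_union_le _ _)
  rw [card_range] at hcard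
  have hcr : (((Icc 1 X).filter (fun n : ℕ => ¬ Good s ε (θ / 2) (4 * C) P n)).card : ℝ) ≤
      ((Nat.sqrt X + 1 : ℕ) : ℝ) + (((range (X + 1)).filter (fun n : ℕ => ¬ GoodB s ε C θ P X (n : ℕ))).card : ℝ) := by
    exact_mod_cast hcard
  refine hcr.trans ?_
  have h4 : ((Nat.sqrt X + 1 : ℕ) : ℝ) ≤ 2 * (X : ℝ) ^ (1 - θ / 2) := by
    have h5 : ((Nat.sqrt X : ℕ) : ℝ) ≤ √(X : ℝ) := Real.nat_sqrt_le_real_sqrt
    have h6 : √(X : ℝ) ≤ (X : ℝ) ^ (1 - θ / 2) := by
      rw [Real.sqrt_eq_rpow]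
      exact Real.rpow_le_rpow_of_exponent_le hX1 (by linarith)
    have h7 : 1 ≤ (X : ℝ) ^ (1 - θ / 2) := Real.one_le_rpow hX1 (by linarith)
    push_cast
    linarith
  have h5 : C * (X : ℝ) ^ (-θ) * ((X + 1 : ℕ) : ℝ) ≤ 2 * C * (X : ℝ) ^ (1 - θ / 2) := by
    have h6 : ((X + 1 : ℕ) : ℝ) ≤ 2 * X := by push_cast; linarith
    calc C * (X : ℝ) ^ (-θ) * ((X + 1 : ℕ) : ℝ) ≤ C * (X : ℝ) ^ (-θ) * (2 * X) := mul_le_mul_of_nonneg_left h6 (by positivity)
      _ = 2 * C * (X : ℝ) ^ (1 - θ) := by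
          rw [sub_eq_add_neg, Real.rpow_add hX0, Real.rpow_one]
          ring
      _ ≤ _ := by
          apply mul_le_mul_of_nonneg_left _ (by linarith)
          exact Real.rpow_le_rpow_of_exponent_le hX1 (by linarith)
  have h6 : 0 ≤ (X : ℝ) ^ (1 - θ / 2) := by positivity
  nlinarith

/-- the reflected polynomial -/
lemma proportion_neg (P : ℤ[X]) (p : ℕ) (hp : 1 ≤ p) (S : Set ℝ) : proportion (P.comp (-X)) p S = proportion P p S := by
  classical
  unfold proportion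
  congr 2
  apply card_bij (fun t _ => (p - t) % p)
  · intro t ht
    rw [mem_filter, mem_range] at ht ⊢
    refine ⟨Nat.mod_lt _ hp, ?_⟩
    have h1 : (p : ℤ) ∣ P.eval ((((p - t) % p : ℕ)) : ℤ) - (P.comp (-X)).eval ((t : ℕ) : ℤ) := by
      rw [eval_comp, eval_neg, eval_X]
      have h2 := P.sub_dvd_eval_sub ((((p - t) % p : ℕ)) : ℤ) (-(t : ℤ))
      refine dvd_trans ?_ h2
      have h3 : (((p - t) % p : ℕ) : ℤ) = ((p : ℤ) - t) % p := by
        rw [Int.natCast_mod, Nat.cast_sub ht.1.le]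
      rw [h3]
      have h4 := Int.emod_add_mul_ediv ((p : ℤ) - t) p
      refine ⟨1 - ((p : ℤ) - t) / p, ?_⟩
      linarith
    rw [angle_congr p h1]
    exact ht.2
  · intro t ht t' ht' h
    rw [mem_filter, mem_range] at ht ht'
    have a1 := ht.1
    have a2 := ht'.1
    rcases Nat.eq_zero_or_pos t with h0 | h0
    · rcases Nat.eq_zero_or_pos t' with h0' | h0'
      · omega
      · rw [h0, Nat.sub_zero, Nat.mod_self, Nat.mod_eq_of_lt (by omega)] at h
        omega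
    · rcases Nat.eq_zero_or_pos t' with h0' | h0'
      · rw [h0', Nat.sub_zero, Nat.mod_self, Nat.mod_eq_of_lt (by omega)] at h
        omega
      · rw [Nat.mod_eq_of_lt (by omega), Nat.mod_eq_of_lt (by omega)] at h
        omega
  · intro t ht
    rw [mem_filter, mem_range] at ht
    refine ⟨(p - t) % p, ?_, ?_⟩
    · rw [mem_filter, mem_range]
      refine ⟨Nat.mod_lt _ hp, ?_⟩
      have h1 : (p : ℤ) ∣ (P.comp (-X)).eval ((((p - t) % p : ℕ)) : ℤ) - P.eval ((t : ℕ) : ℤ) := by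
        rw [eval_comp, eval_neg, eval_X]
        have h2 := P.sub_dvd_eval_sub (-((((p - t) % p : ℕ)) : ℤ)) (t : ℤ)
        refine dvd_trans ?_ h2
        have h3 : (((p - t) % p : ℕ) : ℤ) = ((p : ℤ) - t) % p := by
          rw [Int.natCast_mod, Nat.cast_sub ht.1.le]
        rw [h3]
        have h4 := Int.emod_add_mul_ediv ((p : ℤ) - t) p
        refine ⟨((p : ℤ) - t) / p - 1, ?_⟩
        linarith
      rw [angle_congr p h1]
      exact ht.2
    · rcases Nat.eq_zero_or_pos t with h0 | h0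
      · rw [h0, Nat.sub_zero, Nat.mod_self, Nat.sub_zero, Nat.mod_self]
      · rw [Nat.mod_eq_of_lt (by omega : p - t < p), Nat.mod_eq_of_lt (by omega)]
        omega

lemma model_neg {s : ℕ} (P : ℤ[X]) (I : Fin s → Set ℝ) (K : ℕ) : boxModel (P.comp (-X)) I K = boxModel P I K := by
  unfold boxModel
  refine sum_congr rfl fun k _ => prod_congr rfl fun i _ => ?_
  exact proportion_neg P _ (Nat.prime_nth_prime _).one_lt.le _

lemma good_neg (s : ℕ) (ε θ C : ℝ) (P : ℤ[X]) (n : ℤ) : Good s ε θ C (P.comp (-X)) n ↔ Good s ε θ C P (-n) := by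
  unfold Good
  have e : (P.comp (-X)).eval n = P.eval (-n) := by rw [eval_comp, eval_neg, eval_X]
  simp only [e, model_neg, Int.cast_neg, abs_neg]

end Pool.Agent.L7h16.KA
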