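import Pool.Agent.N384.MQ.Fed

set_option autoImplicit false

/-!
Families of integers whose exponential sums at the fractions with denominators prime to `Q` are small: functions of the
members at consecutive primes. The residues modulo the divisors of powers of `Q` are made uniform by a product with a
cyclic group.
-/

namespace Pool.Agent.L7h16.KA

open Finset
open Pool.Agent.H807R2.Dav (ee norm_ee ee_add)
open Pool.Agent.TH869.EVF (Per)
open Pool.Agent.TH869.SQ (per_mod ind ind1 mean pr lam pr_prime)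
open Pool.Agent.N384.MQ (FED om om_nonneg consecutive3)

/-- sums of periodic functions without mean -/
lemma per_sum {ι : Type} (S : Finset ι) (v : ι → ℕ) (M : ℕ) (hM : 1 ≤ M) (F : ℕ → ℝ) (hF : Per F M) (hF1 : ∀ n, |F n| ≤ 1)
    (hsum : ∑ t ∈ range M, F t = 0) (B : ℝ)
    (hexp : ∀ a ∈ Ico 1 M, ‖∑ i ∈ S, ee ((a : ℝ) * (v i : ℝ) / M)‖ ≤ B) (hB : 0 ≤ B) : |∑ i ∈ S, F (v i)| ≤ M * B := by
  classical
  obtain ⟨g, hg⟩ : ∃ g : ℤ → ℝ, g = fun z => F (z % (M : ℤ)).toNat := ⟨_, rfl⟩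
  have hgper : Pool.Agent.R459.Eq.Per M g := by
    intro m n hmn
    rw [hg]
    simp only
    have : m % (M : ℤ) = n % (M : ℤ) := (Int.emod_emod_of_dvd m (dvd_refl _)).symm.trans (by
      rw [Int.emod_emod_of_dvd m (dvd_refl _)]
      exact Int.emod_eq_emod_iff_emod_sub_eq_zero.2 (Int.emod_eq_zero_of_dvd hmn))
    rw [this]
  have hgF : ∀ v : ℕ, g (v : ℤ) = F v := by
    intro v
    rw [hg]
    simp only
    rw [← Int.natCast_mod, Int.toNat_natCast]
    exact per_mod hF v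
  have hg1 : ∀ n, |g n| ≤ 1 := by
    intro n
    rw [hg]
    exact hF1 _
  have hmean : Pool.Agent.R459.Eq.mean M g = 0 := by
    unfold Pool.Agent.R459.Eq.mean
    have : ∑ t ∈ range M, g (t : ℤ) = 0 := by
      rw [← hsum]
      exact sum_congr rfl fun t _ => hgF t
    rw [this, zero_div]
  have e1 : ((∑ i ∈ S, F (v i) : ℝ) : ℂ) =
      ∑ a ∈ Ico 1 M, Pool.Agent.R459.Eq.co M g a * ∑ i ∈ S, ee ((a : ℝ) * (v i : ℝ) / M) := by
    rw [Complex.ofReal_sum]
    have h1 : ∀ i ∈ S, ((F (v i) : ℝ) : ℂ) =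
        ∑ a ∈ Ico 1 M, Pool.Agent.R459.Eq.co M g a * ee ((a : ℝ) * (v i : ℝ) / M) := by
      intro i _
      have h2 := Pool.Agent.R459.Eq.centered M hM g hgper ((v i : ℕ) : ℤ)
      rw [hmean, sub_zero, hgF] at h2
      rw [h2]
      apply sum_congr rfl
      intro a _
      congr 2
      push_cast
      ring
    rw [sum_congr rfl h1, sum_comm]
    apply sum_congr rfl
    intro a _
    rw [mul_sum]
  rw [← Real.norm_eq_abs, ← Complex.norm_real, e1]
  refine (norm_sum_le _ _).trans ?_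
  calc ∑ a ∈ Ico 1 M, ‖Pool.Agent.R459.Eq.co M g a * ∑ i ∈ S, ee ((a : ℝ) * (v i : ℝ) / M)‖
      ≤ ∑ a ∈ Ico 1 M, B := by
        apply sum_le_sum
        intro a ha
        rw [norm_mul]
        calc _ ≤ 1 * B :=
              mul_le_mul (Pool.Agent.R459.Eq.norm_co M hM g hg1 a) (hexp a ha) (norm_nonneg _) zero_le_one
          _ = _ := one_mul _
    _ = ((M - 1 : ℕ) : ℝ) * B := by rw [sum_const, Nat.card_Ico, nsmul_eq_mul]
    _ ≤ _ := by
        apply mul_le_mul_of_nonneg_right _ hB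
        exact_mod_cast Nat.sub_le _ _

/-- the part of `M` composed of the primes of `Q` -/
lemma split (Q : ℕ) (M : ℕ) (hM : 1 ≤ M) : ∃ M₁ M₂ : ℕ, M = M₁ * M₂ ∧ M₁ ∣ Q ^ M ∧ Nat.Coprime M₂ Q := by
  induction M using Nat.strong_induction_on with
  | _ M ih =>
    by_cases hc : Nat.Coprime M Q
    · exact ⟨1, M, (one_mul M).symm, one_dvd _, hc⟩
    obtain ⟨d, hd⟩ : ∃ d, d = Nat.gcd M Q := ⟨_, rfl⟩
    have hd0 : 0 < d := by rw [hd]; exact Nat.gcd_pos_of_pos_left _ (by omega)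
    have hd1 : d ≠ 1 := by
      intro h
      apply hc
      rw [Nat.Coprime, ← hd, h]
    obtain ⟨M', hM'⟩ : d ∣ M := by rw [hd]; exact Nat.gcd_dvd_left _ _
    have hM'0 : 1 ≤ M' := by
      rcases Nat.eq_zero_or_pos M' with h | h
      · rw [h, mul_zero] at hM'; omega
      · exact h
    have hlt : M' < M := by
      rw [hM']
      exact lt_mul_of_one_lt_left (by omega) (by omega)
    obtain ⟨M₁, M₂, h1, h2, h3⟩ := ih M' hlt hM'0
    refine ⟨d * M₁, M₂, by rw [hM', h1, mul_assoc], ?_, h3⟩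
    have h4 : d ∣ Q := by rw [hd]; exact Nat.gcd_dvd_right _ _
    calc d * M₁ ∣ Q * Q ^ M' := mul_dvd_mul h4 h2
      _ = Q ^ (M' + 1) := by rw [pow_succ, mul_comm]
      _ ∣ Q ^ M := pow_dvd_pow _ hlt

lemma geom_zero (M₁ L : ℕ) (h : M₁ ∣ L) (hM : 1 ≤ M₁) (n : ℤ) (hn : ¬ (M₁ : ℤ) ∣ n) :
    ∑ j ∈ range L, ee ((j : ℝ) * ((n : ℝ) / M₁)) = 0 := by
  have hp0 : (M₁ : ℝ) ≠ 0 := by exact_mod_cast (by omega : M₁ ≠ 0)
  have e : ∀ j : ℕ, ee ((j : ℝ) * ((n : ℝ) / M₁)) = ee ((n : ℝ) / M₁) ^ j := fun j => Pool.Agent.H807R2.Dav.ee_pow _ _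
  simp only [e]
  have h1 : ee ((n : ℝ) / M₁) ≠ 1 := by
    intro h1
    unfold ee at h1
    rw [Complex.exp_eq_one_iff] at h1
    obtain ⟨l, hl⟩ := h1
    have h2 : (2 * Real.pi * Complex.I : ℂ) ≠ 0 := Complex.two_pi_I_ne_zero
    have h3 : (((n : ℝ) / M₁ : ℝ) : ℂ) = (l : ℂ) := by
      apply mul_left_cancel₀ h2
      rw [hl]
      ring
    have h4 : (n : ℝ) / M₁ = l := by exact_mod_cast h3
    apply hn
    refine ⟨l, ?_⟩
    rw [div_eq_iff hp0] at h4
    have : (n : ℝ) = (M₁ : ℝ) * l := by rw [h4]; ring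
    exact_mod_cast this
  have h2 := mul_geom_sum (ee ((n : ℝ) / M₁)) L
  have h3 : ee ((n : ℝ) / M₁) ^ L = 1 := by
    rw [← e]
    obtain ⟨l, rfl⟩ := h
    have : (((M₁ * l : ℕ) : ℝ) * ((n : ℝ) / M₁)) = (((l : ℤ) * n : ℤ) : ℝ) := by
      push_cast
      field_simp
    rw [this]
    exact Pool.Agent.H807R2.Dav.ee_int _
  rw [h3, sub_self] at h2
  exact (mul_eq_zero.1 h2).resolve_left (sub_ne_zero.2 h1)

/-- the number whose multiples are zero modulo all the numbers up to `B` prime to `Q` -/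
def RR (Q B : ℕ) : ℕ := ∏ M ∈ (Icc 1 B).filter (fun M => Nat.Coprime M Q), M

lemma RR_cop (Q B : ℕ) : Nat.Coprime (RR Q B) Q := by
  unfold RR
  exact Nat.Coprime.prod_left fun M hM => (mem_filter.1 hM).2

lemma dvd_RR (Q B M : ℕ) (h1 : 1 ≤ M) (h2 : M ≤ B) (h3 : Nat.Coprime M Q) : M ∣ RR Q B :=
  dvd_prod_of_mem (fun M => M) (mem_filter.2 ⟨mem_Icc.2 ⟨h1, h2⟩, h3⟩)

/-- uniform distribution of the enlarged family -/
theorem big_fed {ι : Type} (S : Finset ι) (v : ι → ℕ) (hS : S.Nonempty) (Q : ℕ) (hQ : 1 ≤ Q) (N B : ℕ) (hN : 1 ≤ N) (hB : N ≤ B)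
    (ρ σ C₀ : ℝ) (hρ : ρ ≤ 1) (hC : 1 ≤ C₀)
    (hexp : ∀ M : ℕ, 1 ≤ M → M.Coprime Q → (M : ℝ) ≤ (N : ℝ) ^ ρ → ∀ a ∈ Ico 1 M,
      ‖∑ i ∈ S, ee ((a : ℝ) * (v i : ℝ) / M)‖ ≤ C₀ * (N : ℝ) ^ (-σ) * S.card) :
    FED (S ×ˢ range (Q ^ B)) (fun z => v z.1 + z.2 * RR Q B) N ρ σ (2 * C₀) := by
  classical
  refine ⟨by linarith, ?_⟩
  intro M hM hMN F hF hF1 hsum
  have hN1 : (1 : ℝ) ≤ N := by exact_mod_cast hN
  have hN0 : (0 : ℝ) < N := by linarith
  have hMB : M ≤ B := by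
    have h1 : (N : ℝ) ^ ρ ≤ N := by
      calc (N : ℝ) ^ ρ ≤ (N : ℝ) ^ (1 : ℝ) := Real.rpow_le_rpow_of_exponent_le hN1 hρ
        _ = N := Real.rpow_one _
    have h2 : M ≤ N := by exact_mod_cast hMN.trans h1
    omega
  obtain ⟨M₁, M₂, hM12, hd, hcop⟩ := split Q M hM
  have hM1 : 1 ≤ M₁ := by
    rcases Nat.eq_zero_or_pos M₁ with h | h
    · rw [h, zero_mul] at hM12; omega
    · exact h
  have hM2 : 1 ≤ M₂ := by
    rcases Nat.eq_zero_or_pos M₂ with h | h
    · rw [h, mul_zero] at hM12; omega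
    · exact h
  have hM2M : M₂ ≤ M := by rw [hM12]; exact Nat.le_mul_of_pos_left _ hM1
  obtain ⟨R', hR'⟩ := dvd_RR Q B M₂ hM2 (hM2M.trans hMB) hcop
  have hdB : M₁ ∣ Q ^ B := hd.trans (pow_dvd_pow _ hMB)
  have hRcop : Nat.Coprime R' M₁ := by
    have h1 : Nat.Coprime (RR Q B) (Q ^ B) := Nat.Coprime.pow_right _ (RR_cop Q B)
    exact (h1.coprime_dvd_left ⟨M₂, by rw [hR', mul_comm]⟩).coprime_dvd_right hdB
  have hM1r : (0 : ℝ) < M₁ := by exact_mod_cast hM1
  have hM2r : (0 : ℝ) < M₂ := by exact_mod_cast hM2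
  have hMr : (M : ℝ) = M₁ * M₂ := by rw [hM12]; push_cast; ring
  have hS0 : (0 : ℝ) < S.card := by exact_mod_cast hS.card_pos
  obtain ⟨L, hL⟩ : ∃ L, L = Q ^ B := ⟨_, rfl⟩
  have hL0 : 0 < L := by rw [hL]; positivity
  have hLr : (0 : ℝ) < L := by exact_mod_cast hL0
  rw [← hL] at hdB ⊢
  have hNσ : 0 < (N : ℝ) ^ (-σ) := Real.rpow_pos_of_pos hN0 _
  have key : ∀ a ∈ Ico 1 M, ‖∑ z ∈ S ×ˢ range L, ee ((a : ℝ) * (((v z.1 + z.2 * RR Q B : ℕ)) : ℝ) / M)‖ ≤
      L * (C₀ * (N : ℝ) ^ (-σ) * S.card) := by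
    intro a ha
    have e1 : ∑ z ∈ S ×ˢ range L, ee ((a : ℝ) * (((v z.1 + z.2 * RR Q B : ℕ)) : ℝ) / M) =
        (∑ i ∈ S, ee ((a : ℝ) * (v i : ℝ) / M)) * ∑ j ∈ range L, ee ((j : ℝ) * ((((a * R' : ℕ) : ℤ) : ℝ) / M₁)) := by
      rw [sum_product, sum_mul_sum]
      apply sum_congr rfl
      intro i _
      apply sum_congr rfl
      intro j _
      rw [← ee_add]
      congr 1
      rw [hMr, hR']
      push_cast
      field_simp
    rw [e1, norm_mul]
    by_cases hda : M₁ ∣ a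
    · obtain ⟨a', ha'⟩ := hda
      rw [mem_Ico] at ha
      have ha2 : a' ∈ Ico 1 M₂ := by
        rw [mem_Ico]
        constructor
        · rcases Nat.eq_zero_or_pos a' with h | h
          · rw [h, mul_zero] at ha'; omega
          · exact h
        · have : M₁ * a' < M₁ * M₂ := by rw [← ha', ← hM12]; exact ha.2
          exact lt_of_mul_lt_mul_left this (by omega)
      have h2 := hexp M₂ hM2 hcop ((Nat.cast_le.2 hM2M).trans hMN) a' ha2
      have e2 : ∀ i, (a : ℝ) * (v i : ℝ) / M = (a' : ℝ) * (v i : ℝ) / M₂ := by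
        intro i
        rw [hMr, ha']
        push_cast
        field_simp
      have h3 : ‖∑ j ∈ range L, ee ((j : ℝ) * ((((a * R' : ℕ) : ℤ) : ℝ) / M₁))‖ ≤ L := by
        refine (norm_sum_le _ _).trans (le_of_eq ?_)
        calc ∑ j ∈ range L, ‖ee ((j : ℝ) * ((((a * R' : ℕ) : ℤ) : ℝ) / M₁))‖ = ∑ j ∈ range L, (1 : ℝ) :=
              sum_congr rfl fun j _ => norm_ee _
          _ = L := by simp
      simp only [e2]
      calc _ ≤ (C₀ * (N : ℝ) ^ (-σ) * S.card) * L := mul_le_mul h2 h3 (norm_nonneg _) (by positivity)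
        _ = _ := by ring
    · have hn : ¬ (M₁ : ℤ) ∣ ((a * R' : ℕ) : ℤ) := by
        intro h
        rw [Int.natCast_dvd_natCast] at h
        exact hda ((Nat.Coprime.dvd_of_dvd_mul_right hRcop.symm) h)
      rw [geom_zero M₁ L hdB hM1 _ hn, norm_zero, mul_zero]
      positivity
  have h := per_sum (S ×ˢ range L) (fun z => v z.1 + z.2 * RR Q B) M hM F hF hF1 hsum _ key (by positivity)
  unfold om
  have hc : (((S ×ˢ range L).card : ℕ) : ℝ) = S.card * L := by
    rw [card_product, card_range]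
    push_cast
    ring
  rw [hc]
  calc ((N : ℝ) + 1) / (S.card * L) * |∑ z ∈ S ×ˢ range L, F (v z.1 + z.2 * RR Q B)| ≤
      ((N : ℝ) + 1) / (S.card * L) * (M * (L * (C₀ * (N : ℝ) ^ (-σ) * S.card))) := mul_le_mul_of_nonneg_left h (by positivity)
    _ = M * (((N : ℝ) + 1) * (C₀ * (N : ℝ) ^ (-σ))) := by field_simp
    _ ≤ M * ((2 * N) * (C₀ * (N : ℝ) ^ (-σ))) := by
        apply mul_le_mul_of_nonneg_left _ (by positivity)
        apply mul_le_mul_of_nonneg_right _ (by positivity)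
        linarith
    _ = M * (2 * C₀ * (N : ℝ) ^ (1 - σ)) := by
        rw [sub_eq_add_neg, Real.rpow_add hN0, Real.rpow_one]
        ring

lemma ind_abs {m : ℕ} (I : Fin m → Set ℝ) (w : Fin m → ℝ) (c : ℝ) (hc0 : 0 ≤ c) (hc1 : c ≤ 1) : |ind I w - c| ≤ 1 := by
  have h1 := Pool.Agent.TH869.SQ.ind_nonneg I w
  have h2 := Pool.Agent.TH869.SQ.ind_le I w
  rw [abs_le]
  constructor <;> linarith

lemma mean_bd (q : ℕ) (S : Set ℝ) (f : ℕ → ℝ) : 0 ≤ mean q (fun t => ind1 S (f t)) ∧ mean q (fun t => ind1 S (f t)) ≤ 1 := by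
  classical
  unfold mean ind1
  have h0 : ∀ t, (0 : ℝ) ≤ (if f t ∈ S then 1 else 0) := by
    intro t
    split_ifs <;> norm_num
  have h1 : ∀ t, (if f t ∈ S then (1 : ℝ) else 0) ≤ 1 := by
    intro t
    split_ifs <;> norm_num
  constructor
  · exact div_nonneg (sum_nonneg fun t _ => h0 t) (Nat.cast_nonneg _)
  · rcases Nat.eq_zero_or_pos q with h | h
    · rw [h]; simp
    · rw [div_le_one (by exact_mod_cast h)]
      calc _ ≤ ∑ _t ∈ range q, (1 : ℝ) := sum_le_sum fun t _ => h1 t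
        _ = q := by simp

open Classical in
/-- functions of the members of a family at consecutive primes -/
theorem consec_gen (Q : ℕ) (hQ : 1 ≤ Q) (ρ σ C₀ : ℝ) (hρ0 : 0 < ρ) (hρ1 : ρ ≤ 1) (hσ0 : 0 < σ) (hσ1 : σ ≤ 1) (hC₀ : 1 ≤ C₀)
    (m : ℕ) (hm : 1 ≤ m) (δ : ℝ) (hδ : 0 < δ) :
    ∃ θ C : ℝ, 0 < θ ∧ θ ≤ 1 ∧ 1 ≤ C ∧ ∀ x : ℕ → ℕ → ℝ, (∀ p n, x p (n + p) = x p n) →
      ∀ (ι : Type) (S : Finset ι) (v : ι → ℕ) (N : ℕ), 1 ≤ N →
        (∀ M : ℕ, 1 ≤ M → M.Coprime Q → (M : ℝ) ≤ (N : ℝ) ^ ρ → ∀ a ∈ Ico 1 M,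
          ‖∑ i ∈ S, ee ((a : ℝ) * (v i : ℝ) / M)‖ ≤ C₀ * (N : ℝ) ^ (-σ) * S.card) →
        ((S.filter (fun i => ¬ ∀ K : ℕ, (K : ℝ) ≤ (N : ℝ) ^ θ →
          ∀ I : Fin m → Set ℝ, (∀ i, (I i).OrdConnected) →
          |∑ k ∈ range K, (ind I (fun i' => x (pr (k + i')) (v i)) -
            ∏ i' : Fin m, mean (pr (k + i')) (fun t => ind1 (I i') (x (pr (k + i')) t)))| ≤
            C * ((K : ℝ) ^ (1 / 2 + δ) * √(1 + Real.log N)))).card : ℝ) ≤ C * (N : ℝ) ^ (-θ) * S.card := by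
  obtain ⟨θ, C, h1, h2, h3, H⟩ := consecutive3 ρ σ (2 * C₀) hρ0 hρ1 hσ0 hσ1 (by linarith) m hm δ hδ
  have hQm : (0 : ℝ) ≤ 2 * m * Q := by positivity
  refine ⟨θ, C + 2 * m * Q, h1, h2, by linarith, fun x hx ι S v N hN hexp => ?_⟩
  have hs0 : (0 : ℝ) ≤ S.card := Nat.cast_nonneg _
  rcases S.eq_empty_or_nonempty with hse | hS
  · rw [hse]
    simp
  have hN1 : (1 : ℝ) ≤ N := by exact_mod_cast hN
  have hN0 : (0 : ℝ) < N := by linarith
  have hS1 : (0 : ℝ) < S.card := by exact_mod_cast hS.card_pos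
  -- the modified functions
  obtain ⟨x', hx'⟩ : ∃ x' : ℕ → ℕ → ℝ, x' = fun p n => if Nat.Coprime p Q then x p n else 0 := ⟨_, rfl⟩
  have hx'per : ∀ p n, x' p (n + p) = x' p n := by
    intro p n
    rw [hx']
    simp only
    rw [hx]
  obtain ⟨B, hB⟩ : ∃ B, B = N + pr (N + m) := ⟨_, rfl⟩
  have hfed := big_fed S v hS Q hQ N B hN (by omega) ρ σ C₀ hρ1 hC₀ hexp
  obtain ⟨E, hE1, hE2⟩ := H (ι × ℕ) _ _ N hfed x' hx'per hN
  obtain ⟨L, hL⟩ : ∃ L, L = Q ^ B := ⟨_, rfl⟩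
  have hL0 : 0 < L := by rw [hL]; positivity
  have hLr : (0 : ℝ) < L := by exact_mod_cast hL0
  rw [← hL] at hE1 hE2
  obtain ⟨Bad, hBad⟩ : ∃ Bad : Finset ι, Bad = S.filter (fun i => ¬ ∀ K : ℕ, (K : ℝ) ≤ (N : ℝ) ^ θ →
          ∀ I : Fin m → Set ℝ, (∀ i, (I i).OrdConnected) →
          |∑ k ∈ range K, (ind I (fun i' => x (pr (k + i')) (v i)) -
            ∏ i' : Fin m, mean (pr (k + i')) (fun t => ind1 (I i') (x (pr (k + i')) t)))| ≤
            (C + 2 * m * Q) * ((K : ℝ) ^ (1 / 2 + δ) * √(1 + Real.log N))) := ⟨_, rfl⟩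
  rw [← hBad]
  have hsub : Bad ×ˢ range L ⊆ E := by
    rintro ⟨i, j⟩ hij
    rw [mem_product] at hij
    obtain ⟨hi, hj⟩ := hij
    simp only at hi hj
    rw [hBad, mem_filter] at hi
    by_contra hnE
    apply hi.2
    intro K hK I hI
    have hmem : (i, j) ∈ S ×ˢ range L := mem_product.2 ⟨hi.1, hj⟩
    have h4 := hE2 (i, j) hmem hnE K hK I hI
    unfold lam at h4
    rcases Nat.eq_zero_or_pos K with hK0 | hK0
    · rw [hK0]
      simp only [range_zero, sum_empty, abs_zero]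
      positivity
    have hK1 : (1 : ℝ) ≤ K := by exact_mod_cast hK0
    have hKN : K ≤ N := by
      have h5 : (N : ℝ) ^ θ ≤ N := by
        calc (N : ℝ) ^ θ ≤ (N : ℝ) ^ (1 : ℝ) := Real.rpow_le_rpow_of_exponent_le hN1 h2
          _ = N := Real.rpow_one _
      exact_mod_cast hK.trans h5
    have hlam : 1 ≤ (K : ℝ) ^ (1 / 2 + δ) * √(1 + Real.log N) := by
      apply one_le_mul_of_one_le_of_one_le
      · exact Real.one_le_rpow hK1 (by linarith)
      · apply Real.one_le_sqrt.2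
        have := Real.log_nonneg hN1
        linarith
    -- the two sums
    obtain ⟨f, hf⟩ : ∃ f : ℕ → ℝ, f = fun k => ind I (fun i' => x (pr (k + i')) (v i)) -
            ∏ i' : Fin m, mean (pr (k + i')) (fun t => ind1 (I i') (x (pr (k + i')) t)) := ⟨_, rfl⟩
    obtain ⟨g, hg⟩ : ∃ g : ℕ → ℝ, g = fun k => ind I (fun i' => x' (pr (k + i')) (v i + j * RR Q B)) -
            ∏ i' : Fin m, mean (pr (k + i')) (fun t => ind1 (I i') (x' (pr (k + i')) t)) := ⟨_, rfl⟩
    have hf' : ∑ k ∈ range K, (ind I (fun i' => x (pr (k + i')) (v i)) -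
            ∏ i' : Fin m, mean (pr (k + i')) (fun t => ind1 (I i') (x (pr (k + i')) t))) = ∑ k ∈ range K, f k := by rw [hf]
    have hg' : ∑ k ∈ range K, (ind I (fun i' => x' (pr (k + i')) (v i + j * RR Q B)) -
            ∏ i' : Fin m, mean (pr (k + i')) (fun t => ind1 (I i') (x' (pr (k + i')) t))) = ∑ k ∈ range K, g k := by rw [hg]
    rw [hf']
    simp only at h4
    rw [hg'] at h4
    have hf1 : ∀ k, |f k| ≤ 1 := by
      intro k
      rw [hf]
      exact ind_abs I _ _ (prod_nonneg fun i _ => (mean_bd _ _ _).1) (prod_le_one (fun i _ => (mean_bd _ _ _).1) fun i _ => (mean_bd _ _ _).2)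
    have hg1 : ∀ k, |g k| ≤ 1 := by
      intro k
      rw [hg]
      exact ind_abs I _ _ (prod_nonneg fun i _ => (mean_bd _ _ _).1) (prod_le_one (fun i _ => (mean_bd _ _ _).1) fun i _ => (mean_bd _ _ _).2)
    obtain ⟨W, hW⟩ : ∃ W : Finset ℕ, W = (range K).filter (fun k => ∃ i' : Fin m, ¬ Nat.Coprime (pr (k + i')) Q) := ⟨_, rfl⟩
    have heq : ∀ k ∈ range K, k ∉ W → f k = g k := by
      intro k hk hkW
      rw [hW, mem_filter] at hkW
      push Not at hkW
      have h5 := hkW hk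
      rw [mem_range] at hk
      have h6 : ∀ i' : Fin m, ∀ t, x' (pr (k + i')) t = x (pr (k + i')) t := by
        intro i' t
        rw [hx']
        simp only
        rw [if_pos (h5 i')]
      have h7 : ∀ i' : Fin m, x (pr (k + i')) (v i + j * RR Q B) = x (pr (k + i')) (v i) := by
        intro i'
        have hdv : pr (k + i') ∣ RR Q B := by
          apply dvd_RR Q B _ (pr_prime _).one_lt.le _ (h5 i')
          have : pr (k + i') ≤ pr (N + m) := by
            apply Nat.nth_monotone Nat.infinite_setOfPred_prime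
            have := i'.2
            omega
          omega
        obtain ⟨c, hc⟩ := hdv
        have a1 := per_mod (hx (pr (k + i'))) (v i + j * RR Q B)
        have a2 := per_mod (hx (pr (k + i'))) (v i)
        rw [← a1, ← a2, hc, show j * (pr (k + i') * c) = pr (k + i') * (j * c) by ring, Nat.add_mul_mod_self_left]
      rw [hf, hg]
      simp only [h6, h7]
    have hWc : (W.card : ℝ) ≤ m * Q := by
      have h5 : W ⊆ (univ : Finset (Fin m)).biUnion (fun i' => (range K).filter (fun k => ¬ Nat.Coprime (pr (k + i')) Q)) := by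
        intro k hk
        rw [hW, mem_filter] at hk
        obtain ⟨hk1, i', hi'⟩ := hk
        exact mem_biUnion.2 ⟨i', mem_univ _, mem_filter.2 ⟨hk1, hi'⟩⟩
      have h6 : ∀ i' ∈ (univ : Finset (Fin m)), ((range K).filter (fun k => ¬ Nat.Coprime (pr (k + i')) Q)).card ≤ Q := by
        intro i' _
        have h7 : ((range K).filter (fun k => ¬ Nat.Coprime (pr (k + i')) Q)).card ≤ Q.primeFactors.card := by
          apply card_le_card_of_injOn (fun k => pr (k + i'))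
          · intro k hk
            have hk2 := (mem_filter.1 (mem_coe.1 hk)).2
            have hpp := pr_prime (k + i')
            rw [hpp.coprime_iff_not_dvd, not_not] at hk2
            exact mem_coe.2 (Nat.mem_primeFactors.2 ⟨hpp, hk2, by omega⟩)
          · intro k _ k' _ hkk
            have := Pool.Agent.TH869.SQ.pr_inj hkk
            omega
        have h8 : Q.primeFactors.card ≤ Q := by
          have : Q.primeFactors ⊆ Icc 1 Q := by
            intro p hp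
            have hp1 := Nat.prime_of_mem_primeFactors hp
            exact mem_Icc.2 ⟨hp1.one_lt.le, Nat.le_of_mem_primeFactors hp⟩
          have := card_le_card this
          rwa [Nat.card_Icc, Nat.add_sub_cancel] at this
        exact h7.trans h8
      have h7 := (card_le_card h5).trans (card_biUnion_le.trans (sum_le_card_nsmul _ _ Q h6))
      rw [card_univ, Fintype.card_fin, smul_eq_mul] at h7
      exact_mod_cast h7
    have hdiff : |∑ k ∈ range K, f k - ∑ k ∈ range K, g k| ≤ 2 * m * Q := by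
      rw [← sum_sub_distrib]
      refine (abs_sum_le_sum_abs _ _).trans ?_
      have h5 : ∀ k ∈ range K, |f k - g k| ≤ if k ∈ W then 2 else 0 := by
        intro k hk
        by_cases hkW : k ∈ W
        · rw [if_pos hkW]
          have a1 := abs_le.1 (hf1 k)
          have a2 := abs_le.1 (hg1 k)
          rw [abs_le]
          constructor <;> linarith
        · rw [if_neg hkW, heq k hk hkW, sub_self, abs_zero]
      refine (sum_le_sum h5).trans ?_
      rw [← sum_filter, sum_const, nsmul_eq_mul]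
      have h6 : ((range K).filter (fun k => k ∈ W)).card ≤ W.card := card_le_card fun k hk => (mem_filter.1 hk).2
      have h7 : (((range K).filter (fun k => k ∈ W)).card : ℝ) ≤ m * Q := (Nat.cast_le.2 h6).trans hWc
      linarith
    have h5 : |∑ k ∈ range K, f k| ≤ |∑ k ∈ range K, g k| + 2 * m * Q := by
      have := abs_sub_abs_le_abs_sub (∑ k ∈ range K, f k) (∑ k ∈ range K, g k)
      linarith
    refine h5.trans ?_
    nlinarith
  have hcard := card_le_card hsub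
  rw [card_product, card_range] at hcard
  have hcr : (Bad.card : ℝ) * L ≤ E.card := by exact_mod_cast hcard
  unfold om at hE1
  have hc : (((S ×ˢ range L).card : ℕ) : ℝ) = S.card * L := by
    rw [card_product, card_range]
    push_cast
    ring
  rw [hc, div_mul_eq_mul_div, div_le_iff₀ (by positivity)] at hE1
  have h6 : (N : ℝ) * (Bad.card * L) ≤ C * (N : ℝ) ^ (1 - θ) * (S.card * L) := by
    refine le_trans ?_ hE1
    have h7 : (0 : ℝ) ≤ E.card := Nat.cast_nonneg _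
    calc (N : ℝ) * (Bad.card * L) ≤ N * E.card := mul_le_mul_of_nonneg_left hcr hN0.le
      _ ≤ (N + 1) * E.card := by nlinarith
  have h7 : (N : ℝ) ^ (1 - θ) = N * (N : ℝ) ^ (-θ) := by
    rw [sub_eq_add_neg, Real.rpow_add hN0, Real.rpow_one]
  rw [h7] at h6
  have h8 : ((N : ℝ) * L) * Bad.card ≤ ((N : ℝ) * L) * (C * (N : ℝ) ^ (-θ) * S.card) := by
    calc ((N : ℝ) * L) * Bad.card = (N : ℝ) * (Bad.card * L) := by ring
      _ ≤ _ := h6
      _ = _ := by ring
  have h9 := le_of_mul_le_mul_left h8 (by positivity)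
  refine h9.trans ?_
  have h10 : 0 ≤ (N : ℝ) ^ (-θ) * S.card := by positivity
  nlinarith

end Pool.Agent.L7h16.KA
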