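import Pool.Agent.L7h16.KA.Gen
import Pool.Agent.Results.MP_6ea630_nt.NonIntegralOrderValues

set_option autoImplicit false

/-!
The Kloosterman angles at consecutive primes for the members of families of integers with small exponential sums.
-/

namespace Pool.Agent.L7h16.KA

open Finset Filter Polynomial
open Pool.Agent.H807R2.Dav (ee norm_ee ee_add)
open Pool.Agent.Results.MP_6ea630_nt.NonIntegralOrderValues (angle_congr boxCount boxModel proportion signCount side side_oc side_iff model_ge)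

/-- All boxes at `s` consecutive primes, for the number `P(n)`, at the scale `N`. -/
def GoodB (s : ℕ) (δ C θ : ℝ) (P : ℤ[X]) (N : ℝ) (n : ℤ) : Prop :=
  ∀ K : ℕ, (K : ℝ) ≤ N ^ θ → ∀ I : Fin s → Set ℝ, (∀ i, (I i).OrdConnected) →
    |(boxCount I K (P.eval n) : ℝ) - boxModel P I K| ≤ C * ((K : ℝ) ^ (1 / 2 + δ) * √(1 + Real.log N))

open Classical in
/-- boxes for families -/
theorem kl_boxes (Q : ℕ) (hQ : 1 ≤ Q) (ρ σ C₀ : ℝ) (hρ0 : 0 < ρ) (hρ1 : ρ ≤ 1) (hσ0 : 0 < σ) (hσ1 : σ ≤ 1) (hC₀ : 1 ≤ C₀)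
    (s : ℕ) (hs : 1 ≤ s) (δ : ℝ) (hδ : 0 < δ) :
    ∃ θ C : ℝ, 0 < θ ∧ θ ≤ 1 ∧ 1 ≤ C ∧ ∀ (P : ℤ[X]) (ι : Type) (S : Finset ι) (v : ι → ℕ) (N : ℕ), 1 ≤ N →
        (∀ M : ℕ, 1 ≤ M → M.Coprime Q → (M : ℝ) ≤ (N : ℝ) ^ ρ → ∀ a ∈ Ico 1 M,
          ‖∑ i ∈ S, ee ((a : ℝ) * (v i : ℝ) / M)‖ ≤ C₀ * (N : ℝ) ^ (-σ) * S.card) →
        ((S.filter (fun i => ¬ GoodB s δ C θ P N (v i : ℕ))).card : ℝ) ≤ C * (N : ℝ) ^ (-θ) * S.card := by
  obtain ⟨θ, C, h1, h2, h3, H⟩ := consec_gen Q hQ ρ σ C₀ hρ0 hρ1 hσ0 hσ1 hC₀ s hs δ hδ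
  refine ⟨θ, C, h1, h2, h3, fun P ι S v N hN hexp => ?_⟩
  have hE := H (fun p n => Pool.Agent.Results.MP_6ea630_nt.NonIntegralOrderValues.angle p (P.eval (n : ℤ))) (by
    intro p n
    apply angle_congr
    have e : ((n + p : ℕ) : ℤ) - (n : ℤ) = p := by push_cast; ring
    have := P.sub_dvd_eval_sub ((n + p : ℕ) : ℤ) (n : ℤ)
    rwa [e] at this) ι S v N hN hexp
  refine le_trans (Nat.cast_le.2 (card_le_card fun i hi => ?_)) hE
  rw [mem_filter] at hi ⊢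
  refine ⟨hi.1, fun hcon => hi.2 ?_⟩
  intro K hK I hI
  have h := hcon K hK I hI
  rw [sum_sub_distrib] at h
  have e1 : (boxCount I K (P.eval ((v i : ℕ) : ℤ)) : ℝ) = ∑ k ∈ range K,
      Pool.Agent.TH869.SQ.ind I (fun i' : Fin s => Pool.Agent.Results.MP_6ea630_nt.NonIntegralOrderValues.angle
        (Pool.Agent.TH869.SQ.pr (k + i')) (P.eval ((v i : ℕ) : ℤ))) := by
    unfold boxCount Pool.Agent.TH869.SQ.ind Pool.Agent.TH869.SQ.pr
    rw [sum_boole]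
  have e2 : boxModel P I K = ∑ k ∈ range K, ∏ i : Fin s,
      Pool.Agent.TH869.SQ.mean (Pool.Agent.TH869.SQ.pr (k + i)) (fun t =>
        Pool.Agent.TH869.SQ.ind1 (I i) (Pool.Agent.Results.MP_6ea630_nt.NonIntegralOrderValues.angle
          (Pool.Agent.TH869.SQ.pr (k + i)) (P.eval (t : ℤ)))) := by
    unfold boxModel proportion Pool.Agent.TH869.SQ.mean Pool.Agent.TH869.SQ.ind1 Pool.Agent.TH869.SQ.pr
    refine sum_congr rfl fun k _ => prod_congr rfl fun i _ => ?_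
    rw [sum_boole]
  rw [e1, e2]
  exact h

/-- Every pattern of signs occurs for at least `((1 / 4 - η) ^ s - ε) K` of the `k < K`, for all `K` in the range. -/
def GoodS (s : ℕ) (η ε θ : ℝ) (N : ℝ) (a : ℤ) : Prop :=
  ∀ K : ℕ, Real.log N ^ 2 ≤ K → (K : ℝ) ≤ N ^ θ → ∀ σ : Fin s → ℝ, (∀ i, σ i = 1 ∨ σ i = -1) →
    ((1 / 4 - η) ^ s - ε) * K ≤ signCount s σ η K a

open Classical in
/-- the signs from the boxes -/
theorem signs_of_boxes (s : ℕ) (hs : 1 ≤ s) (θ C₁ : ℝ) (hC₁ : 1 ≤ C₁) (η ε : ℝ) (hη : 0 ≤ η) (hη1 : η ≤ 1 / 4)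
    (hε : 0 < ε) (κ : ℤ) (hκ : κ ≠ 0) : ∃ N₀ : ℝ, ∀ N : ℝ, N₀ ≤ N → ∀ c₀ n : ℤ,
      GoodB s (1 / 8) C₁ θ (C c₀ + C κ * X) N n → GoodS s η ε θ N (c₀ + κ * n) := by
  obtain ⟨k₁, hk₁⟩ := model_ge s hs η ε hη hη1 hε κ hκ
  have t2 : Tendsto (fun N : ℝ => Real.log N) atTop atTop := Real.tendsto_log_atTop
  have t3 : Tendsto (fun N : ℝ => Real.log N ^ (1 / 4 : ℝ)) atTop atTop := (tendsto_rpow_atTop (by norm_num)).comp t2
  have ev := (t2.eventually_ge_atTop (4 * k₁ / ε + k₁ + 1)).and (t3.eventually_ge_atTop (4 * C₁ * 2 / ε))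
  obtain ⟨N₀, hN₀⟩ := eventually_atTop.1 ev
  refine ⟨max N₀ 1, fun N hN c₀ n hcon => ?_⟩
  obtain ⟨q2, q3⟩ := hN₀ N (le_trans (le_max_left _ _) hN)
  have hN1 : (1 : ℝ) ≤ N := le_trans (le_max_right _ _) hN
  have hN0 : (0 : ℝ) < N := by linarith
  have hk0 : (0 : ℝ) ≤ k₁ := Nat.cast_nonneg _
  have hkε : 0 ≤ 4 * k₁ / ε := by positivity
  have hL1 : 1 ≤ Real.log N := by linarith
  intro K hK1 hK2 σ hσ
  have hL2 : Real.log N ≤ Real.log N ^ 2 := by nlinarith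
  have hKL : Real.log N ≤ K := hL2.trans hK1
  have hK0 : (0 : ℝ) < K := by linarith
  have hb := hcon K hK2 (fun i => side η (σ i)) (fun i => side_oc η (σ i))
  have hcount : boxCount (fun i => side η (σ i)) K ((C c₀ + C κ * X : ℤ[X]).eval n) =
      signCount s σ η K (c₀ + κ * n) := by
    have e : (C c₀ + C κ * X : ℤ[X]).eval n = c₀ + κ * n := by
      simp only [eval_add, eval_mul, eval_C, eval_X]
    rw [e]
    unfold boxCount signCount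
    congr 1
    apply filter_congr
    intro k _
    exact forall_congr' fun i => side_iff η hη hη1 (σ i) (hσ i) _ (Nat.prime_nth_prime _).pos _
  rw [hcount] at hb
  have hmod := hk₁ K (by
    have : (k₁ : ℝ) ≤ K := by linarith
    exact_mod_cast this) c₀ σ hσ
  -- the error term
  have herr : C₁ * ((K : ℝ) ^ (1 / 2 + 1 / 8 : ℝ) * √(1 + Real.log N)) ≤ ε / 4 * K := by
    have r1 : √(1 + Real.log N) ≤ 2 * Real.log N ^ (1 / 2 : ℝ) := by
      rw [← Real.sqrt_eq_rpow]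
      have : 1 + Real.log N ≤ 4 * Real.log N := by linarith
      calc √(1 + Real.log N) ≤ √(4 * Real.log N) := Real.sqrt_le_sqrt this
        _ = 2 * √(Real.log N) := by
            rw [Real.sqrt_mul (by norm_num), show (4 : ℝ) = 2 ^ 2 by norm_num, Real.sqrt_sq (by norm_num)]
    have r2 : Real.log N ^ (3 / 4 : ℝ) ≤ (K : ℝ) ^ (3 / 8 : ℝ) := by
      calc Real.log N ^ (3 / 4 : ℝ) = (Real.log N ^ 2) ^ (3 / 8 : ℝ) := by
            rw [← Real.rpow_natCast, ← Real.rpow_mul (by linarith)]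
            norm_num
        _ ≤ _ := Real.rpow_le_rpow (by positivity) hK1 (by norm_num)
    have r3 : Real.log N ^ (1 / 2 : ℝ) * Real.log N ^ (1 / 4 : ℝ) = Real.log N ^ (3 / 4 : ℝ) := by
      rw [← Real.rpow_add (by linarith)]
      norm_num
    have r4 : (K : ℝ) = (K : ℝ) ^ (1 / 2 + 1 / 8 : ℝ) * (K : ℝ) ^ (3 / 8 : ℝ) := by
      rw [← Real.rpow_add hK0]
      norm_num
    have r5 : C₁ * √(1 + Real.log N) ≤ ε / 4 * (K : ℝ) ^ (3 / 8 : ℝ) := by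
      have r6 : 4 * C₁ * 2 / ε * Real.log N ^ (1 / 2 : ℝ) ≤ Real.log N ^ (1 / 2 : ℝ) * Real.log N ^ (1 / 4 : ℝ) := by
        rw [mul_comm]
        exact mul_le_mul_of_nonneg_left q3 (by positivity)
      rw [r3] at r6
      have r7 := r6.trans r2
      have r8 : C₁ * (2 * Real.log N ^ (1 / 2 : ℝ)) = ε / 4 * (4 * C₁ * 2 / ε * Real.log N ^ (1 / 2 : ℝ)) := by field_simp
      calc C₁ * √(1 + Real.log N) ≤ C₁ * (2 * Real.log N ^ (1 / 2 : ℝ)) := mul_le_mul_of_nonneg_left r1 (by positivity)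
        _ = _ := r8
        _ ≤ _ := mul_le_mul_of_nonneg_left r7 (by positivity)
    calc C₁ * ((K : ℝ) ^ (1 / 2 + 1 / 8 : ℝ) * √(1 + Real.log N)) =
          (K : ℝ) ^ (1 / 2 + 1 / 8 : ℝ) * (C₁ * √(1 + Real.log N)) := by ring
      _ ≤ (K : ℝ) ^ (1 / 2 + 1 / 8 : ℝ) * (ε / 4 * (K : ℝ) ^ (3 / 8 : ℝ)) := mul_le_mul_of_nonneg_left r5 (by positivity)
      _ = ε / 4 * ((K : ℝ) ^ (1 / 2 + 1 / 8 : ℝ) * (K : ℝ) ^ (3 / 8 : ℝ)) := by ring
      _ = ε / 4 * K := by rw [← r4]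
  have e2 : (k₁ : ℝ) ≤ ε / 4 * K := by
    have h4 : (4 * k₁ / ε : ℝ) ≤ K := by linarith
    rw [div_le_iff₀ hε] at h4
    linarith
  have e3 : (1 / 4 - η) ^ s ≤ 1 := pow_le_one₀ (by linarith) (by linarith)
  have e4 : ((1 / 4 - η) ^ s - ε / 4) * k₁ ≤ ε / 4 * K := by nlinarith
  have hb2 := (abs_le.1 hb).1
  nlinarith

end Pool.Agent.L7h16.KA
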