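import Pool.Agent.L7h16.KA.All

set_option autoImplicit false

/-!
Signs, and the countable families of the conditions.
-/

namespace Pool.Agent.L7h16.KA

open Finset Filter Polynomial
open Pool.Agent.Results.MP_6ea630_nt.NonIntegralOrderValues (angle angle_congr boxCount boxModel proportion signCount)

/-- Every pattern of signs occurs at `s` consecutive primes, for the number `a`, for at least `((1 / 4 - η) ^ s - ε) K` of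
the `k < K`, for `(log |n|) ^ 2 ≤ K ≤ |n| ^ θ`. -/
def GoodSg (s : ℕ) (η ε θ : ℝ) (n a : ℤ) : Prop :=
  ∀ K : ℕ, Real.log |(n : ℝ)| ^ 2 ≤ K → (K : ℝ) ≤ |(n : ℝ)| ^ θ → ∀ σ : Fin s → ℝ, (∀ i, σ i = 1 ∨ σ i = -1) →
    ((1 / 4 - η) ^ s - ε) * K ≤ signCount s σ η K a

lemma signs_of_good (s : ℕ) (hs : 1 ≤ s) (θ C₁ : ℝ) (hC₁ : 1 ≤ C₁) (η ε : ℝ) (hη : 0 ≤ η) (hη1 : η ≤ 1 / 4)
    (hε : 0 < ε) (κ : ℤ) (hκ : κ ≠ 0) : ∃ N₀ : ℝ, ∀ c₀ n : ℤ, N₀ ≤ |(n : ℝ)| →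
      Good s (1 / 8) θ C₁ (C c₀ + C κ * X) n → GoodSg s η ε θ n (c₀ + κ * n) := by
  obtain ⟨N₀, h⟩ := signs_of_boxes s hs θ C₁ hC₁ η ε hη hη1 hε κ hκ
  exact ⟨N₀, fun c₀ n hn hg => h |(n : ℝ)| hn c₀ n hg⟩

open Classical in
/-- both signs of `n` -/
theorem all_int (s : ℕ) (hs : 1 ≤ s) (ε : ℝ) (hε : 0 < ε) : ∃ θ C : ℝ, 0 < θ ∧ θ ≤ 1 / 2 ∧ 1 ≤ C ∧ ∀ (P : ℤ[X]) (X : ℕ), 1 ≤ X →
    (((Icc 1 X).filter (fun n : ℕ => ¬ (Good s ε θ C P (n : ℤ) ∧ Good s ε θ C P (-(n : ℤ))))).card : ℝ) ≤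
      2 * C * (X : ℝ) ^ (1 - θ) := by
  obtain ⟨θ, C, h1, h2, h3, H⟩ := all_nat s hs ε hε
  refine ⟨θ, C, h1, h2, h3, fun P X hX => ?_⟩
  have a1 := H P X hX
  have a2 := H (P.comp (-Polynomial.X)) X hX
  have hsub : (Icc 1 X).filter (fun n : ℕ => ¬ (Good s ε θ C P (n : ℤ) ∧ Good s ε θ C P (-(n : ℤ)))) ⊆
      (Icc 1 X).filter (fun n : ℕ => ¬ Good s ε θ C P n) ∪ (Icc 1 X).filter (fun n : ℕ => ¬ Good s ε θ C (P.comp (-Polynomial.X)) n) := by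
    intro n hn
    rw [mem_filter] at hn
    rw [mem_union, mem_filter, mem_filter, good_neg]
    by_cases h : Good s ε θ C P (n : ℤ)
    · right
      exact ⟨hn.1, fun h' => hn.2 ⟨h, h'⟩⟩
    · left
      exact ⟨hn.1, h⟩
  have h4 := (card_le_card hsub).trans (card_union_le _ _)
  have h5 : (((Icc 1 X).filter (fun n : ℕ => ¬ (Good s ε θ C P (n : ℤ) ∧ Good s ε θ C P (-(n : ℤ))))).card : ℝ) ≤
      (((Icc 1 X).filter (fun n : ℕ => ¬ Good s ε θ C P n)).card : ℝ) +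
        (((Icc 1 X).filter (fun n : ℕ => ¬ Good s ε θ C (P.comp (-Polynomial.X)) n)).card : ℝ) := by exact_mod_cast h4
  linarith

end Pool.Agent.L7h16.KA
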