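import Pool.Agent.L7h16.KA.Kl
import Pool.Agent.N625.GW.C

set_option autoImplicit false

/-!
Exponential sums over walks at the fractions whose denominators are prime to a fixed number.
-/

namespace Pool.Agent.L7h16.KA

open Finset Filter
open Pool.Agent.H807R2.Dav (ee norm_ee ee_add)
open Pool.Agent.TH872.Mir (Far)
open Pool.Agent.N625.DY (act)
open Pool.Agent.N625.GW (Graph walks Rho Gq Z Z_final tame_reach rho_two two_le)

/-- in every long block of places there is one at which the frequency is far from the integers -/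
lemma far_place (b : ℕ) (hb : 2 ≤ b) (T : ℕ) (M : ℕ) (hM : 1 ≤ M) (hT : M ≤ b ^ T) (y : ℝ) (hy : ∀ n : ℤ, 1 / (M : ℝ) ≤ |y - n|) :
    ∃ j < T, Far (1 / (2 * (b : ℝ))) ((b : ℝ) ^ j * y) := by
  have hb2 : (2 : ℝ) ≤ b := by exact_mod_cast hb
  have hb0 : (0 : ℝ) < b := by linarith
  have hM0 : (0 : ℝ) < M := by exact_mod_cast hM
  by_contra hcon
  push Not at hcon
  have hn : ∀ j < T, ∃ n : ℤ, |(b : ℝ) ^ j * y - n| < 1 / (2 * (b : ℝ)) := by
    intro j hj
    have := hcon j hj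
    unfold Far at this
    push Not at this
    exact this
  rcases Nat.eq_zero_or_pos T with hT0 | hT0
  · rw [hT0, pow_zero] at hT
    have hM1 : M = 1 := by omega
    have h1 := hy (round y)
    rw [hM1, Nat.cast_one, div_one] at h1
    have := abs_sub_round y
    linarith
  obtain ⟨n₀, hn₀⟩ := hn 0 hT0
  rw [pow_zero, one_mul] at hn₀
  have key : ∀ j < T, |(b : ℝ) ^ j * y - (b : ℝ) ^ j * n₀| < 1 / (2 * (b : ℝ)) := by
    intro j
    induction j with
    | zero => intro _; simpa using hn₀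
    | succ j ih =>
      intro hj
      have h1 := ih (by omega)
      obtain ⟨n, hn⟩ := hn (j + 1) hj
      have h2 : |(b : ℝ) ^ (j + 1) * y - (b : ℝ) ^ (j + 1) * n₀| < 1 / 2 := by
        have e : (b : ℝ) ^ (j + 1) * y - (b : ℝ) ^ (j + 1) * n₀ = b * ((b : ℝ) ^ j * y - (b : ℝ) ^ j * n₀) := by ring
        rw [e, abs_mul, abs_of_pos hb0]
        have := mul_lt_mul_of_pos_left h1 hb0
        have e2 : (b : ℝ) * (1 / (2 * (b : ℝ))) = 1 / 2 := by field_simp
        linarith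
      have h3 : 1 / (2 * (b : ℝ)) ≤ 1 / 4 := by
        apply one_div_le_one_div_of_le (by norm_num)
        linarith
      have h4 : (n : ℤ) = (b : ℤ) ^ (j + 1) * n₀ := by
        apply Pool.Agent.R459.Eq.int_eq_of_lt
        push_cast
        have e : (n : ℝ) - (b : ℝ) ^ (j + 1) * n₀ = -((b : ℝ) ^ (j + 1) * y - n) + ((b : ℝ) ^ (j + 1) * y - (b : ℝ) ^ (j + 1) * n₀) := by ring
        rw [e]
        refine (abs_add_le _ _).trans_lt ?_
        rw [abs_neg]
        linarith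
      have h5 : ((n : ℤ) : ℝ) = (b : ℝ) ^ (j + 1) * n₀ := by rw [h4]; push_cast; ring
      rw [← h5]
      exact hn
  have h1 := key (T - 1) (by omega)
  have e : (b : ℝ) ^ (T - 1) * y - (b : ℝ) ^ (T - 1) * n₀ = (b : ℝ) ^ (T - 1) * (y - n₀) := by ring
  rw [e, abs_mul, abs_of_pos (by positivity)] at h1
  have h2 := hy n₀
  have h3 : (b : ℝ) ^ (T - 1) * (1 / M) < 1 / (2 * (b : ℝ)) :=
    lt_of_le_of_lt (mul_le_mul_of_nonneg_left h2 (by positivity)) h1
  have h4 : (b : ℝ) ^ (T - 1) * b = (b : ℝ) ^ T := by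
    rw [← pow_succ]
    congr 1
    omega
  have h5 : (M : ℝ) ≤ (b : ℝ) ^ T := by exact_mod_cast hT
  rw [mul_one_div, div_lt_div_iff₀ hM0 (by positivity)] at h3
  nlinarith [pow_pos hb0 (T - 1)]

/-- the frequency is far from the integers for all the differences -/
lemma gq_far (b : ℕ) (hb : 2 ≤ b) (y : ℝ) (h : Far (1 / (2 * (b : ℝ))) ((((b ^ 2).factorial : ℕ) : ℝ) * y)) :
    Gq b (4 * (1 / (2 * (b : ℝ) * (((b ^ 2).factorial : ℕ) : ℝ))) ^ 2) y := by
  intro d hd0 hd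
  obtain ⟨n, hn⟩ : d ∣ (b ^ 2).factorial := Nat.dvd_factorial hd0 hd.le
  obtain ⟨M, hM⟩ : ∃ M, M = (b ^ 2).factorial := ⟨_, rfl⟩
  rw [← hM] at hn h ⊢
  have hM0 : 0 < M := by rw [hM]; exact Nat.factorial_pos _
  have hn0 : 0 < n := Nat.pos_of_ne_zero (fun h0 => by rw [h0, mul_zero] at hn; omega)
  have hnM : n ≤ M := by rw [hn]; exact Nat.le_mul_of_pos_left n hd0
  have hb2 : (2 : ℝ) ≤ b := by exact_mod_cast hb
  have hMr : (0 : ℝ) < M := by exact_mod_cast hM0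
  have hnr : (n : ℝ) ≤ M := by exact_mod_cast hnM
  have hn1 : (0 : ℝ) < n := by exact_mod_cast hn0
  refine Pool.Agent.W93.RD.cos_dist _ _ (by positivity) ?_
  intro z
  have h1 := h ((n : ℤ) * z)
  have e : (M : ℝ) * y - (((n : ℤ) * z : ℤ) : ℝ) = n * ((d : ℝ) * y - z) := by
    rw [hn]
    push_cast
    ring
  rw [e, abs_mul, abs_of_pos hn1] at h1
  have h2 : (n : ℝ) * |(d : ℝ) * y - z| ≤ M * |(d : ℝ) * y - z| := mul_le_mul_of_nonneg_right hnr (abs_nonneg _)
  have h3 := h1.trans h2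
  have e2 : 1 / (2 * (b : ℝ) * M) = (1 / (2 * (b : ℝ))) / M := by field_simp
  rw [e2, div_le_iff₀ hMr]
  linarith

/-- the number of the places -/
lemma act_ge (g : ℕ → Prop) [DecidablePred g] (T k : ℕ) (hT : 1 ≤ T) (hg : ∀ i : ℕ, ∃ j, i ≤ j ∧ j < i + T ∧ g j) :
    (k - 1) / T ≤ act g k := by
  classical
  choose f hf using hg
  unfold act
  have h : ((range ((k - 1) / T)).image (fun w => f (w * T))).card = (k - 1) / T := by
    rw [card_image_of_injOn, card_range]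
    intro w _ w' _ hww
    simp only at hww
    by_contra hne
    rcases lt_or_gt_of_ne hne with h1 | h1
    · have a1 := hf (w * T)
      have a2 := hf (w' * T)
      have : (w + 1) * T ≤ w' * T := Nat.mul_le_mul_right T h1
      have e : (w + 1) * T = w * T + T := by ring
      omega
    · have a1 := hf (w * T)
      have a2 := hf (w' * T)
      have : (w' + 1) * T ≤ w * T := Nat.mul_le_mul_right T h1
      have e : (w' + 1) * T = w' * T + T := by ring
      omega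
  rw [← h]
  apply card_le_card
  intro j hj
  rw [mem_image] at hj
  obtain ⟨w, hw, rfl⟩ := hj
  rw [mem_range] at hw
  rw [mem_filter, mem_range]
  have a1 := hf (w * T)
  refine ⟨?_, a1.2.2⟩
  have h2 : (w + 1) * T ≤ (k - 1) / T * T := Nat.mul_le_mul_right T hw
  have h3 := Nat.div_mul_le_self (k - 1) T
  have e : (w + 1) * T = w * T + T := by ring
  omega

variable {X : Type} {b : ℕ} {δ : X → ℕ → Option X}

/-- exponential sums over the walks -/
theorem walk_sum (hG : Graph b δ) (x : X) (ρ : ℝ) (hρ : 0 < ρ) (hR : Rho b δ x ρ) :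
    ∃ μ : ℝ, 0 < μ ∧ μ < 1 ∧ ∀ (k : ℕ) (y : X), 0 < (walks b δ k x y).card → ∀ M T : ℕ, 1 ≤ M → 1 ≤ T → M ≤ b ^ T →
      Nat.Coprime M (b * (b ^ 2).factorial) → ∀ a ∈ Ico 1 M,
      ‖∑ v ∈ walks b δ k x y, ee ((a : ℝ) * (v : ℝ) / M)‖ ≤ ρ ^ k * μ ^ ((k - 1) / T) := by
  classical
  have hb := two_le hG x
  have hb2 : (2 : ℝ) ≤ b := by exact_mod_cast hb
  have hρ2 := rho_two hG hR
  obtain ⟨D, hD⟩ : ∃ D, D = (b ^ 2).factorial := ⟨_, rfl⟩
  have hD1 : (1 : ℝ) ≤ D := by rw [hD]; exact_mod_cast Nat.factorial_pos _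
  have hD1' : 1 ≤ D := by rw [hD]; exact Nat.factorial_pos _
  obtain ⟨c, hc⟩ : ∃ c, c = 4 * (1 / (2 * (b : ℝ) * (D : ℝ))) ^ 2 := ⟨_, rfl⟩
  have hc0 : 0 < c := by rw [hc]; positivity
  have hc1 : c ≤ 1 / 4 := by
    rw [hc]
    have e1 : (4 : ℝ) ≤ 2 * (b : ℝ) * D := by nlinarith
    have e2 : 1 / (2 * (b : ℝ) * D) ≤ 1 / 4 := one_div_le_one_div_of_le (by norm_num) e1
    have e3 : 0 ≤ 1 / (2 * (b : ℝ) * D) := by positivity
    nlinarith
  obtain ⟨μ, hμ⟩ : ∃ μ, μ = Real.sqrt (1 - c / ρ ^ 2) := ⟨_, rfl⟩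
  have hcb : c / ρ ^ 2 ≤ c := div_le_self hc0.le (by linarith)
  have hcb0 : 0 < c / ρ ^ 2 := by positivity
  have hμ0 : 0 < μ := by
    rw [hμ]
    apply Real.sqrt_pos.2
    linarith
  have hμ1 : μ < 1 := by
    rw [hμ, Real.sqrt_lt' one_pos]
    linarith
  have hμ2 : μ ^ 2 = 1 - c / ρ ^ 2 := by rw [hμ, Real.sq_sqrt (by linarith)]
  have hμ3 : ρ ^ 2 - c = ρ ^ 2 * μ ^ 2 := by
    rw [hμ2]
    field_simp
  refine ⟨μ, hμ0, hμ1, fun k y hpos M T hM hT hMT hcop a ha => ?_⟩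
  rw [mem_Ico] at ha
  have hM0 : (0 : ℝ) < M := by exact_mod_cast hM
  obtain ⟨θ, hθ⟩ : ∃ θ : ℝ, θ = (a : ℝ) / M := ⟨_, rfl⟩
  have hZ : ∑ v ∈ walks b δ k x y, ee ((a : ℝ) * (v : ℝ) / M) = Z b δ θ y k x := by
    unfold Z
    apply sum_congr rfl
    intro v _
    congr 1
    rw [hθ]
    ring
  rw [hZ]
  rw [← hD] at hcop
  obtain ⟨g, hg⟩ : ∃ g : ℕ → Prop, g = fun j => Gq b c ((b : ℝ) ^ j * θ) := ⟨_, rfl⟩
  have hplace : ∀ i : ℕ, ∃ j, i ≤ j ∧ j < i + T ∧ g j := by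
    intro i
    obtain ⟨j, hj, hfar⟩ := far_place b hb T M hM hMT ((D : ℝ) * ((b : ℝ) ^ i * θ)) (by
      intro n
      have e : (D : ℝ) * ((b : ℝ) ^ i * θ) - n = (((D * b ^ i * a : ℕ) : ℤ) - n * M : ℤ) / (M : ℝ) := by
        rw [hθ]
        push_cast
        field_simp
      rw [e, abs_div, abs_of_pos hM0, ← Int.cast_abs]
      apply div_le_div_of_nonneg_right _ hM0.le
      have h1 : ((D * b ^ i * a : ℕ) : ℤ) - n * M ≠ 0 := by
        intro h0
        have h2 : (M : ℤ) ∣ ((D * b ^ i * a : ℕ) : ℤ) := ⟨n, by linarith⟩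
        rw [Int.natCast_dvd_natCast] at h2
        have h3 : Nat.Coprime M (D * b ^ i) := by
          apply Nat.Coprime.mul_right
          · exact hcop.coprime_dvd_right ⟨b, mul_comm _ _⟩
          · exact Nat.Coprime.pow_right _ (hcop.coprime_dvd_right ⟨D, rfl⟩)
        have h4 := Nat.le_of_dvd (by omega) (h3.dvd_of_dvd_mul_left h2)
        omega
      exact_mod_cast Int.one_le_abs h1)
    refine ⟨i + j, by omega, by omega, ?_⟩
    rw [hg]
    simp only
    rw [hc]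
    have := gq_far b hb ((b : ℝ) ^ (i + j) * θ)
    rw [← hD] at this
    apply this
    have e : (D : ℝ) * ((b : ℝ) ^ (i + j) * θ) = (b : ℝ) ^ j * ((D : ℝ) * ((b : ℝ) ^ i * θ)) := by
      rw [pow_add]
      ring
    rw [e]
    exact hfar
  have h1 := Z_final hG θ y ρ c μ hρ (tame_reach hG hR k hpos) hc0.le (by linarith) (by linarith) hμ0.le hμ1.le hμ3 g
    (fun j hj => by rw [hg] at hj; exact hj) k x
  refine h1.trans ?_
  apply mul_le_mul_of_nonneg_left _ (by positivity)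
  exact pow_le_pow_of_le_one hμ0.le hμ1.le (act_ge g T k hT hplace)

end Pool.Agent.L7h16.KA
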